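import Pool.Agent.H74.BRB.Stmts

/-!
# Row CYL: the probability not to visit `d` during the first `n` steps
-/

set_option autoImplicit false

namespace Pool.BRB

open MeasureTheory

namespace CYL51

/-- extension of a finite word -/
def ext {n : ℕ} (w : Fin n → Dir) (i : ℕ) : Dir := if h : i < n then w ⟨i, h⟩ else Dir.N

theorem pos_congr (M : Board) (o : ℤ × ℤ) (A B : ℕ → Dir) : ∀ j : ℕ, (∀ i, i < j → A i = B i) →
    pos M o A j = pos M o B j
  | 0, _ => rfl
  | j + 1, h => by
    show step M (pos M o A j) (A j) = step M (pos M o B j) (B j)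
    rw [pos_congr M o A B j (fun i hi => h i (by omega)), h j (by omega)]

theorem pos_cons (M : Board) (o : ℤ × ℤ) (A : ℕ → Dir) : ∀ j : ℕ,
    pos M o A (j + 1) = pos M (step M o (A 0)) (fun i => A (i + 1)) j
  | 0 => rfl
  | j + 1 => by
    show step M (pos M o A (j + 1)) (A (j + 1)) =
      step M (pos M (step M o (A 0)) (fun i => A (i + 1)) j) (A (j + 1))
    rw [pos_cons M o A j]

/-- the word does not bring the robot to `d` -/
def Bad (M : Board) (o d : ℤ × ℤ) {n : ℕ} (w : Fin n → Dir) : Prop :=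
  ∀ j ≤ n, pos M o (ext w) j ≠ d

theorem bad_cons (M : Board) (o d : ℤ × ℤ) (n : ℕ) (D : Dir) (w : Fin n → Dir) :
    Bad M o d (Fin.cons D w : Fin (n + 1) → Dir) ↔ o ≠ d ∧ Bad M (step M o D) d w := by
  have h0 : ext (Fin.cons D w : Fin (n + 1) → Dir) 0 = D := by
    simp [ext]
  have h1 : (fun i => ext (Fin.cons D w : Fin (n + 1) → Dir) (i + 1)) = ext w := by
    funext i
    unfold ext
    by_cases h : i < n
    · rw [dif_pos (by omega), dif_pos h]
      exact Fin.cons_succ (α := fun _ => Dir) D w ⟨i, h⟩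
    · rw [dif_neg (by omega), dif_neg h]
  have h2 : ∀ j, pos M o (ext (Fin.cons D w : Fin (n + 1) → Dir)) (j + 1) =
      pos M (step M o D) (ext w) j := by
    intro j
    rw [pos_cons, h0, h1]
  constructor
  · intro h
    refine ⟨h 0 (by omega), fun j hj => ?_⟩
    rw [← h2]
    exact h (j + 1) (by omega)
  · rintro ⟨h3, h4⟩ j hj
    cases j with
    | zero => exact h3
    | succ j =>
      rw [h2]
      exact h4 j (by omega)

open Classical in
theorem cnt (M : Board) (d : ℤ × ℤ) : ∀ (n : ℕ) (o : ℤ × ℤ),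
    (∑ w : Fin n → Dir, if Bad M o d w then (1 : ℝ) else 0) = 4 ^ n * uu M d n o
  | 0, o => by
    rw [Fintype.sum_unique]
    have : Bad M o d (default : Fin 0 → Dir) ↔ o ≠ d := by
      constructor
      · intro h
        exact h 0 le_rfl
      · intro h j hj
        obtain rfl : j = 0 := by omega
        exact h
    rw [pow_zero, one_mul]
    show _ = (if o = d then (0 : ℝ) else 1)
    by_cases h : o = d
    · rw [if_neg (by rw [this]; simpa using h), if_pos h]
    · rw [if_pos (this.2 h), if_neg h]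
  | n + 1, o => by
    rw [← (Fin.consEquiv (fun _ : Fin (n + 1) => Dir)).sum_comp, Fintype.sum_prod_type]
    show (∑ D : Dir, ∑ w : Fin n → Dir,
      if Bad M o d (Fin.cons D w : Fin (n + 1) → Dir) then (1 : ℝ) else 0) = _
    show _ = 4 ^ (n + 1) * (if o = d then (0 : ℝ) else (1 / 4) * ∑ D : Dir, uu M d n (step M o D))
    by_cases h : o = d
    · rw [if_pos h, mul_zero]
      refine Finset.sum_eq_zero fun D _ => Finset.sum_eq_zero fun w _ => ?_
      rw [if_neg]
      rw [bad_cons]
      exact fun h' => h'.1 h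
    · rw [if_neg h]
      have : ∀ D : Dir, (∑ w : Fin n → Dir,
          if Bad M o d (Fin.cons D w : Fin (n + 1) → Dir) then (1 : ℝ) else 0) =
          4 ^ n * uu M d n (step M o D) := by
        intro D
        rw [← cnt M d n (step M o D)]
        refine Finset.sum_congr rfl fun w _ => ?_
        have h5 := bad_cons M o d n D w
        by_cases h6 : Bad M (step M o D) d w
        · rw [if_pos h6, if_pos (h5.2 ⟨h, h6⟩)]
        · rw [if_neg h6, if_neg (fun h7 => h6 (h5.1 h7).2)]
      rw [Finset.sum_congr rfl (fun D _ => this D), ← Finset.mul_sum, pow_succ]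
      ring

/-- the cylinder of a word -/
def Cyl {n : ℕ} (w : Fin n → Dir) : Set (ℕ → Dir) :=
  Set.pi (Finset.range n : Set ℕ) (fun i => {ext w i})

theorem mem_cyl {n : ℕ} (w : Fin n → Dir) (A : ℕ → Dir) :
    A ∈ Cyl w ↔ ∀ i : Fin n, A i = w i := by
  unfold Cyl
  simp only [Set.mem_pi, Finset.coe_range, Set.mem_Iio, Set.mem_singleton_iff]
  constructor
  · intro h i
    rw [h i i.2]
    simp [ext]
  · intro h i hi
    rw [h ⟨i, hi⟩]
    simp [ext, hi]

end CYL51

open CYL51 in
theorem CYL (hP : PRBStmt) : CYLStmt := by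
  classical
  intro M o d n
  haveI hp1 := hP.1
  haveI : MeasurableSingletonClass Dir := ⟨fun _ => trivial⟩
  set E : Set (ℕ → Dir) := {A : ℕ → Dir | ∀ j ≤ n, pos M o A j ≠ d} with hE
  set F : Finset (Fin n → Dir) := Finset.univ.filter (fun w => Bad M o d w) with hF
  have hpos : ∀ (A : ℕ → Dir) (w : Fin n → Dir), A ∈ Cyl w → ∀ j ≤ n,
      pos M o A j = pos M o (ext w) j := by
    intro A w hA j hj
    refine pos_congr M o A (ext w) j fun i hi => ?_
    have h1 : i < n := by omega
    rw [(mem_cyl w A).1 hA ⟨i, h1⟩]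
    simp [ext, h1]
  have hU : E = ⋃ w ∈ F, Cyl w := by
    ext A
    simp only [Set.mem_iUnion, exists_prop]
    constructor
    · intro hA
      have hc : A ∈ Cyl (fun i : Fin n => A i) := (mem_cyl _ A).2 fun _ => rfl
      refine ⟨fun i : Fin n => A i, ?_, hc⟩
      rw [hF, Finset.mem_filter]
      refine ⟨Finset.mem_univ _, fun j hj => ?_⟩
      rw [← hpos A _ hc j hj]
      exact hA j hj
    · rintro ⟨w, hw, hA⟩ j hj
      rw [hF, Finset.mem_filter] at hw
      rw [hpos A w hA j hj]
      exact hw.2 j hj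
  have hm : ∀ w : Fin n → Dir, MeasurableSet (Cyl w) := fun w =>
    MeasurableSet.pi (Finset.countable_toSet _) fun i _ => measurableSet_singleton _
  have hν : ∀ x : Dir, ((4 : ENNReal)⁻¹ • (Measure.count : Measure Dir)) {x} = (4 : ENNReal)⁻¹ := by
    intro x
    rw [Measure.smul_apply, Measure.count_singleton, smul_eq_mul, mul_one]
  have hc : ∀ w : Fin n → Dir, wordLaw (Cyl w) = ((4 : ENNReal)⁻¹) ^ n := by
    intro w
    unfold wordLaw Cyl
    rw [Measure.infinitePi_pi _ (fun i _ => measurableSet_singleton _)]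
    rw [Finset.prod_congr rfl (fun i _ => hν (ext w i)), Finset.prod_const, Finset.card_range]
  refine ⟨?_, ?_⟩
  · rw [hU]
    exact F.measurableSet_biUnion fun w _ => hm w
  · rw [hU, measure_biUnion_finset]
    · rw [Finset.sum_congr rfl (fun w _ => hc w), Finset.sum_const, nsmul_eq_mul]
      have h1 : (F.card : ℝ) = 4 ^ n * uu M d n o := by
        rw [← cnt M d n o, hF, Finset.card_filter, Nat.cast_sum]
        refine Finset.sum_congr rfl fun w _ => ?_
        split_ifs <;> simp
      have h2 : uu M d n o = (F.card : ℝ) * (4⁻¹ : ℝ) ^ n := by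
        rw [h1, mul_comm, ← mul_assoc, ← mul_pow]
        norm_num
      rw [h2, ENNReal.ofReal_mul (Nat.cast_nonneg _), ENNReal.ofReal_natCast,
        ENNReal.ofReal_pow (by norm_num), ENNReal.ofReal_inv_of_pos (by norm_num),
        ENNReal.ofReal_ofNat]
    · intro w _ w' _ hne
      show Disjoint (Cyl w) (Cyl w')
      rw [Set.disjoint_left]
      intro A hA hA'
      apply hne
      funext i
      rw [← (mem_cyl w A).1 hA i, ← (mem_cyl w' A).1 hA' i]
    · exact fun w _ => hm w

end Pool.BRB
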