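import Pool.Agent.H74.BRB.Stmts

/-!
# Row TEL: telescoping
-/

set_option autoImplicit false

namespace Pool.BRB

theorem TEL (hF : FLXStmt) (hO : UPOStmt) (hR : UPRStmt) : TELStmt := by
  intro M d g n hfin hd hg
  obtain ⟨-, hL⟩ := hO M d
  obtain ⟨hb, -⟩ := hR M d
  set L : ℕ → ℝ := fun j => Lap M (uu M d j) d with hLdef
  set G : ℕ → ℝ := fun j => ∑' v, g v * uu M d j v with hGdef
  have hanti : Antitone L := antitone_nat_of_succ_le hL
  have h1 : (n : ℝ) * L n ≤ ∑ j ∈ Finset.range n, L j := by
    have h := Finset.card_nsmul_le_sum (Finset.range n) L (L n)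
      (fun j hj => hanti (le_of_lt (Finset.mem_range.1 hj)))
    rwa [Finset.card_range, nsmul_eq_mul] at h
  have h2 : ∑ j ∈ Finset.range n, L j ≤
      ∑ j ∈ Finset.range n, (En M g g + 8 * (G j - G (j + 1))) :=
    Finset.sum_le_sum fun j _ => hF M d g j hfin hd
  have h3 : ∑ j ∈ Finset.range n, (En M g g + 8 * (G j - G (j + 1))) =
      n * En M g g + 8 * (G 0 - G n) := by
    rw [Finset.sum_add_distrib, Finset.sum_const, Finset.card_range, nsmul_eq_mul,
      ← Finset.mul_sum, Finset.sum_range_sub']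
  have h4 : 0 ≤ G n := tsum_nonneg fun v => mul_nonneg (hg v) (hb n v).1
  have h5 : G 0 ≤ ∑' v, g v := by
    refine Summable.tsum_le_tsum (fun v => ?_) ?_ ?_
    · exact mul_le_of_le_one_right (hg v) (hb 0 v).2
    · refine summable_of_finite_support (hfin.subset fun v hv => ?_)
      intro h0
      exact hv (by simp only [h0, zero_mul])
    · exact summable_of_finite_support hfin
  have h6 : (n : ℝ) * L n ≤ n * En M g g + 8 * (G 0 - G n) := by linarith
  show (n : ℝ) * L n ≤ _
  linarith

end Pool.BRB
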